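import Pool.Agent.Work.MP_0b7501_nt.N3

/-!
Square products of factorials (a problem of Erdős and Graham): the orders of growth of
`N_3(n)`, `N_4(n)`, `N_5(n)`, `N_6(n)` are `√n`, `n`, `n`, `n`.
-/

namespace Pool.Agent.Results.MP_0b7501_nt.Orders

/-- `m` has a representation of length `k`: there is a set `A` of exactly `k` positive integers,
with largest element `m`, such that the product of the factorials of its elements is a perfect
square. -/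
def HasRep (k m : ℕ) : Prop :=
  ∃ A : Finset ℕ, A.card = k ∧ m ∈ A ∧ (∀ a ∈ A, 1 ≤ a ∧ a ≤ m) ∧
    IsSquare (∏ a ∈ A, a.factorial)

/-- `F(m) = k`: `k` is the least integer `≥ 2` such that `m` has a representation of
length `k`. -/
def FEq (k m : ℕ) : Prop := 2 ≤ k ∧ HasRep k m ∧ ∀ j, 2 ≤ j → j < k → ¬ HasRep j m

open Classical in
/-- `N_k(n)`: the number of `m ∈ {1, …, n}` with `F(m) = k`. -/
noncomputable def N (k n : ℕ) : ℕ := ((Finset.Icc 1 n).filter (fun m => FEq k m)).card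

/-- `N_3(n) = Θ(√n)` and `N_k(n) = Θ(n)` for `k = 4, 5, 6`. -/
theorem result :
    (∃ c C : ℝ, 0 < c ∧ 0 < C ∧ ∀ᶠ n : ℕ in Filter.atTop,
      c * Real.sqrt n ≤ (N 3 n : ℝ) ∧ (N 3 n : ℝ) ≤ C * Real.sqrt n) ∧
    (∀ k : ℕ, 4 ≤ k → k ≤ 6 → ∃ c C : ℝ, 0 < c ∧ 0 < C ∧ ∀ᶠ n : ℕ in Filter.atTop,
      c * n ≤ (N k n : ℝ) ∧ (N k n : ℝ) ≤ C * n) := by
  have hN : ∀ k n, N k n = Pool.Agent.Work.MP_0b7501_nt.cnt k n := fun _ _ => rfl
  refine ⟨?_, ?_⟩
  · obtain ⟨c, hc, h⟩ := Pool.Agent.Work.MP_0b7501_nt.n3_lower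
    obtain ⟨C, hC, h'⟩ := Pool.Agent.Work.MP_0b7501_nt.n3_upper
    refine ⟨c, C, hc, hC, ?_⟩
    filter_upwards [h, h'] with n hn hn'
    rw [hN]
    exact ⟨hn, hn'⟩
  · intro k h4 h6
    have hk : ∃ c : ℝ, 0 < c ∧ ∀ᶠ n : ℕ in Filter.atTop,
        c * n ≤ (Pool.Agent.Work.MP_0b7501_nt.cnt k n : ℝ) := by
      interval_cases k
      · exact Pool.Agent.Work.MP_0b7501_nt.n4_lower
      · exact Pool.Agent.Work.MP_0b7501_nt.n5_lower
      · exact Pool.Agent.Work.MP_0b7501_nt.n6_lower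
    obtain ⟨c, hc, h⟩ := hk
    refine ⟨c, 1, hc, one_pos, ?_⟩
    filter_upwards [h] with n hn
    rw [hN]
    refine ⟨hn, ?_⟩
    rw [one_mul]
    exact_mod_cast Pool.Agent.Work.MP_0b7501_nt.cnt_le k n

end Pool.Agent.Results.MP_0b7501_nt.Orders
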